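import Pool.Agent.helper13.BN.Defs
import Pool.Agent.helper33.Insul.H1b

/-! Basic facts on the Dirichlet space `DD` (module A1). -/

set_option autoImplicit false
open MeasureTheory Filter Topology Set Metric
open scoped ContDiff Gradient RealInnerProductSpace ENNReal NNReal

noncomputable section
namespace Pool.Agent.helper13.BN
variable {N : ℕ}

/-! ### test functions and gradients -/

theorem IsTest.add {Ω : Set (E N)} {φ ψ : E N → ℝ} (h : IsTest Ω φ) (h' : IsTest Ω ψ) :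
    IsTest Ω (fun x => φ x + ψ x) :=
  ⟨h.1.add h'.1, h.2.1.add h'.2.1, (tsupport_add φ ψ).trans (union_subset h.2.2 h'.2.2)⟩

theorem IsTest.const_mul {Ω : Set (E N)} {φ : E N → ℝ} (h : IsTest Ω φ) (c : ℝ) :
    IsTest Ω (fun x => c * φ x) :=
  ⟨contDiff_const.mul h.1, h.2.1.mul_left, (tsupport_smul_subset_right (fun _ => c) φ).trans h.2.2⟩

theorem IsTest.sub {Ω : Set (E N)} {φ ψ : E N → ℝ} (h : IsTest Ω φ) (h' : IsTest Ω ψ) :
    IsTest Ω (fun x => φ x - ψ x) := by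
  have h1 := h.add (h'.const_mul (-1))
  have e : (fun x => φ x - ψ x) = fun x => φ x + (-1) * ψ x := by ext x; ring
  rw [e]; exact h1

theorem isTest_zero {Ω : Set (E N)} : IsTest Ω (fun _ => 0) :=
  ⟨contDiff_const, HasCompactSupport.zero, by simp [tsupport]⟩

theorem IsTest.mono {Ω Ω' : Set (E N)} {φ : E N → ℝ} (h : IsTest Ω φ) (hs : Ω ⊆ Ω') :
    IsTest Ω' φ := ⟨h.1, h.2.1, h.2.2.trans hs⟩

theorem IsTest.univ {Ω : Set (E N)} {φ : E N → ℝ} (h : IsTest Ω φ) : IsTest univ φ :=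
  h.mono (subset_univ _)

theorem IsTest.diff {Ω : Set (E N)} {φ : E N → ℝ} (h : IsTest Ω φ) (x : E N) :
    DifferentiableAt ℝ φ x := (h.1.differentiable (by simp)) x

theorem grad_def (φ : E N → ℝ) (x : E N) :
    ∇ φ x = (InnerProductSpace.toDual ℝ (E N)).symm (fderiv ℝ φ x) := rfl

theorem grad_add {φ ψ : E N → ℝ} {x : E N} (h : DifferentiableAt ℝ φ x)
    (h' : DifferentiableAt ℝ ψ x) : ∇ (fun y => φ y + ψ y) x = ∇ φ x + ∇ ψ x := by
  rw [grad_def, grad_def, grad_def, ← map_add, fderiv_fun_add h h']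

theorem grad_const_mul {φ : E N → ℝ} {x : E N} (c : ℝ) (h : DifferentiableAt ℝ φ x) :
    ∇ (fun y => c * φ y) x = c • ∇ φ x := by
  rw [grad_def, grad_def, fderiv_const_mul h]
  simp

theorem grad_sub {φ ψ : E N → ℝ} {x : E N} (h : DifferentiableAt ℝ φ x)
    (h' : DifferentiableAt ℝ ψ x) : ∇ (fun y => φ y - ψ y) x = ∇ φ x - ∇ ψ x := by
  rw [grad_def, grad_def, grad_def, ← map_sub, fderiv_fun_sub h h']

theorem IsGrad.add {φ ψ : E N → ℝ} {W W' : LV N} (h : IsGrad W φ) (h' : IsGrad W' ψ)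
    (hd : ∀ x, DifferentiableAt ℝ φ x) (hd' : ∀ x, DifferentiableAt ℝ ψ x) :
    IsGrad (W + W') (fun x => φ x + ψ x) := by
  unfold IsGrad at *
  filter_upwards [h, h', Lp.coeFn_add W W'] with x h1 h2 h3
  rw [h3, Pi.add_apply, h1, h2, grad_add (hd x) (hd' x)]

theorem IsGrad.smul {φ : E N → ℝ} {W : LV N} (h : IsGrad W φ) (c : ℝ)
    (hd : ∀ x, DifferentiableAt ℝ φ x) : IsGrad (c • W) (fun x => c * φ x) := by
  unfold IsGrad at *
  filter_upwards [h, Lp.coeFn_smul c W] with x h1 h3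
  rw [h3, Pi.smul_apply, h1, grad_const_mul c (hd x)]

theorem IsGrad.sub {φ ψ : E N → ℝ} {W W' : LV N} (h : IsGrad W φ) (h' : IsGrad W' ψ)
    (hd : ∀ x, DifferentiableAt ℝ φ x) (hd' : ∀ x, DifferentiableAt ℝ ψ x) :
    IsGrad (W - W') (fun x => φ x - ψ x) := by
  unfold IsGrad at *
  filter_upwards [h, h', Lp.coeFn_sub W W'] with x h1 h2 h3
  rw [h3, Pi.sub_apply, h1, h2, grad_sub (hd x) (hd' x)]

theorem isGrad_zero : IsGrad (0 : LV N) (fun _ => 0) := by
  unfold IsGrad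
  filter_upwards [Lp.coeFn_zero (E N) 2 (volume : Measure (E N))] with x h1
  rw [h1]; simp [gradient_fun_const]

theorem DD_mono {Ω Ω' : Set (E N)} (h : Ω ⊆ Ω') : DD Ω ≤ DD Ω' := by
  apply Submodule.topologicalClosure_mono
  apply Submodule.span_mono
  rintro w ⟨φ, h1, h2⟩
  exact ⟨φ, h1.mono h, h2⟩

/-- the gradients of test functions form a subspace -/
def gradSub (Ω : Set (E N)) : Submodule ℝ (LV N) where
  carrier := gradSet Ω
  add_mem' := by
    rintro w w' ⟨φ, h1, h2⟩ ⟨ψ, h3, h4⟩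
    exact ⟨_, h1.add h3, h2.add h4 h1.diff h3.diff⟩
  zero_mem' := ⟨_, isTest_zero, isGrad_zero⟩
  smul_mem' := by
    rintro c w ⟨φ, h1, h2⟩
    exact ⟨_, h1.const_mul c, h2.smul c h1.diff⟩

theorem DD_eq (Ω : Set (E N)) : DD Ω = (gradSub Ω).topologicalClosure := by
  unfold DD
  congr 1
  exact Submodule.span_eq (gradSub Ω)

/-- the span in the definition of `DD` is not needed -/
theorem DD_seq {Ω : Set (E N)} {w : LV N} : w ∈ DD Ω ↔ ∃ (φ : ℕ → E N → ℝ) (W : ℕ → LV N),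
    (∀ n, IsTest Ω (φ n) ∧ IsGrad (W n) (φ n)) ∧ Tendsto W atTop (𝓝 w) := by
  rw [DD_eq, ← SetLike.mem_coe, Submodule.topologicalClosure_coe, mem_closure_iff_seq_limit]
  constructor
  · rintro ⟨W, h1, h2⟩
    choose φ hφ using h1
    exact ⟨φ, W, hφ, h2⟩
  · rintro ⟨φ, W, h1, h2⟩
    exact ⟨W, fun n => ⟨φ n, h1 n⟩, h2⟩

theorem DD_isClosed (Ω : Set (E N)) : IsClosed (DD Ω : Set (LV N)) :=
  Submodule.isClosed_topologicalClosure _

theorem test_mem_DD {Ω : Set (E N)} {φ : E N → ℝ} {W : LV N} (h : IsTest Ω φ)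
    (hW : IsGrad W φ) : W ∈ DD Ω :=
  DD_seq.2 ⟨fun _ => φ, fun _ => W, fun _ => ⟨h, hW⟩, tendsto_const_nhds⟩

open Pool.Agent.helper33.Insul (memLp_cc continuous_gradient gradient_cs IsH1 isH1_C1
  isH1_lipschitz moll ker moll_contDiff moll_tendsto memLp_moll) in
/-- `C¹` functions with compact support have a gradient in `L²` -/
theorem exists_isGrad {φ : E N → ℝ} (h : ContDiff ℝ 1 φ) (hs : HasCompactSupport φ) :
    ∃ W : LV N, IsGrad W φ := by
  have h1 : MemLp (fun x => ∇ φ x) 2 (volume : Measure (E N)) :=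
    memLp_cc (continuous_gradient h) (gradient_cs hs)
  exact ⟨h1.toLp _, h1.coeFn_toLp⟩

theorem IsTest.exists_isGrad {Ω : Set (E N)} {φ : E N → ℝ} (h : IsTest Ω φ) :
    ∃ W : LV N, IsGrad W φ :=
  BN.exists_isGrad (h.1.of_le (by simp)) h.2.1

theorem eLpNorm_isGrad {φ : E N → ℝ} {W : LV N} (h : IsGrad W φ) :
    eLpNorm (fun x => ∇ φ x) 2 volume = ENNReal.ofReal ‖W‖ := by
  rw [← eLpNorm_congr_ae h, Lp.norm_def, ENNReal.ofReal_toReal (Lp.eLpNorm_ne_top W)]

/-! ### Sobolev -/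

theorem ts_gt (hN : 3 ≤ N) : 2 < ts N := by
  have h : (3 : ℝ) ≤ N := by exact_mod_cast hN
  unfold ts
  rw [lt_div_iff₀ (by linarith)]
  linarith

theorem one_le_ts (hN : 3 ≤ N) : (1 : ℝ≥0∞) ≤ ENNReal.ofReal (ts N) := by
  have := ts_gt hN
  rw [← ENNReal.ofReal_one]
  exact ENNReal.ofReal_le_ofReal (by linarith)

theorem sob_test (hN : 3 ≤ N) : ∃ C : ℝ≥0, ∀ φ : E N → ℝ, IsTest univ φ →
    eLpNorm φ (ENNReal.ofReal (ts N)) volume ≤ C * eLpNorm (fun x => ∇ φ x) 2 volume := by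
  refine ⟨SNormLESNormFDerivOfEqConst ℝ (volume : Measure (E N)) (2 : ℝ≥0), fun φ hφ => ?_⟩
  have h3 : (3 : ℝ) ≤ N := by exact_mod_cast hN
  have hc := ts_gt hN
  have e1 : eLpNorm (fun x => ∇ φ x) 2 volume = eLpNorm (fderiv ℝ φ) 2 volume :=
    eLpNorm_congr_norm_ae (Eventually.of_forall fun x =>
      Pool.Agent.helper33.Insul.norm_gradient φ x)
  rw [e1]
  have hfr : Module.finrank ℝ (E N) = N := by simp
  have h := eLpNorm_le_eLpNorm_fderiv_of_eq (F := ℝ) (volume : Measure (E N))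
    (u := φ) (hφ.1.of_le (by simp)) hφ.2.1 (p := 2) (p' := Real.toNNReal (ts N)) (by norm_num)
    (by rw [hfr]; omega)
    (by
      rw [Real.coe_toNNReal _ (by linarith), hfr]
      unfold ts
      have : (N : ℝ) ≠ 0 := by linarith
      have : (N : ℝ) - 2 ≠ 0 := by linarith
      push_cast
      field_simp)
  simpa [ENNReal.ofReal] using h

theorem IsTest.memLp {Ω : Set (E N)} {φ : E N → ℝ} (h : IsTest Ω φ) (p : ℝ≥0∞) :
    MemLp φ p volume := h.1.continuous.memLp_of_hasCompactSupport h.2.1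

/-- convergence in `D` of test functions implies convergence of the functions -/
theorem exists_limit (hN : 3 ≤ N) {φ : ℕ → E N → ℝ} {W : ℕ → LV N} {w : LV N}
    (h : ∀ n, IsTest univ (φ n) ∧ IsGrad (W n) (φ n)) (hl : Tendsto W atTop (𝓝 w)) :
    ∃ u : E N → ℝ, MemLp u (ENNReal.ofReal (ts N)) volume ∧
      Tendsto (fun n => eLpNorm (fun x => φ n x - u x) (ENNReal.ofReal (ts N)) volume) atTop
        (𝓝 0) := by
  obtain ⟨C, hC⟩ := sob_test (N := N) hN
  have : Fact (1 ≤ ENNReal.ofReal (ts N)) := ⟨one_le_ts hN⟩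
  set f : ℕ → Lp ℝ (ENNReal.ofReal (ts N)) (volume : Measure (E N)) :=
    fun n => ((h n).1.memLp _).toLp (φ n) with hf
  have hd : ∀ n m, dist (f n) (f m) ≤ C * dist (W n) (W m) := by
    intro n m
    have h1 := hC _ ((h n).1.sub (h m).1)
    rw [eLpNorm_isGrad ((h n).2.sub (h m).2 (h n).1.diff (h m).1.diff)] at h1
    rw [Lp.dist_def, dist_eq_norm]
    have h2 : eLpNorm (⇑(f n) - ⇑(f m)) (ENNReal.ofReal (ts N)) volume
        = eLpNorm (fun x => φ n x - φ m x) (ENNReal.ofReal (ts N)) volume := by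
      apply eLpNorm_congr_ae
      exact (((h n).1.memLp _).coeFn_toLp).sub (((h m).1.memLp _).coeFn_toLp)
    rw [h2]
    refine ENNReal.toReal_le_of_le_ofReal (by positivity) (h1.trans ?_)
    rw [ENNReal.ofReal_mul (by positivity), ENNReal.ofReal_coe_nnreal]
  have hW : CauchySeq W := hl.cauchySeq
  have hfc : CauchySeq f := by
    rw [Metric.cauchySeq_iff] at hW ⊢
    intro ε hε
    obtain ⟨n0, hn0⟩ := hW (ε / (C + 1)) (by positivity)
    refine ⟨n0, fun m hm n hn => (hd m n).trans_lt ?_⟩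
    have h3 := hn0 m hm n hn
    have h4 : (C : ℝ) * dist (W m) (W n) ≤ (C + 1) * dist (W m) (W n) := by
      apply mul_le_mul_of_nonneg_right _ dist_nonneg; linarith
    refine h4.trans_lt ?_
    rw [lt_div_iff₀ (by positivity)] at h3
    linarith
  obtain ⟨u, hu⟩ := cauchySeq_tendsto_of_complete hfc
  refine ⟨u, Lp.memLp u, ?_⟩
  rw [Lp.tendsto_Lp_iff_tendsto_eLpNorm'] at hu
  refine hu.congr fun n => ?_
  apply eLpNorm_congr_ae
  exact (((h n).1.memLp _).coeFn_toLp).sub (EventuallyEq.rfl)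

theorem exists_isFn (hN : 3 ≤ N) {w : LV N} (hw : w ∈ DD univ) : ∃ u, IsFn w u := by
  obtain ⟨φ, W, h1, h2⟩ := DD_seq.1 hw
  obtain ⟨u, h3, h4⟩ := exists_limit hN h1 h2
  exact ⟨u, h3.1, φ, W, h1, h2, h4⟩

theorem isFn_fn (hN : 3 ≤ N) {w : LV N} (hw : w ∈ DD univ) : IsFn w (fn w) := by
  have h := exists_isFn hN hw
  unfold fn
  rw [dif_pos h]
  exact h.choose_spec

theorem isFn_unique (hN : 3 ≤ N) {w : LV N} {u u' : E N → ℝ} (h : IsFn w u) (h' : IsFn w u') :
    u =ᵐ[volume] u' := by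
  obtain ⟨m1, φ, W, h1, h2, h3⟩ := h
  obtain ⟨m1', φ', W', h1', h2', h3'⟩ := h'
  obtain ⟨C, hC⟩ := sob_test (N := N) hN
  have hp := one_le_ts hN
  have hp0 : ENNReal.ofReal (ts N) ≠ 0 := fun h => by rw [h] at hp; simp at hp
  have key : ∀ n, eLpNorm (fun x => u x - u' x) (ENNReal.ofReal (ts N)) volume ≤
      eLpNorm (fun x => φ n x - u x) (ENNReal.ofReal (ts N)) volume +
      (C * ENNReal.ofReal ‖W n - W' n‖ +
        eLpNorm (fun x => φ' n x - u' x) (ENNReal.ofReal (ts N)) volume) := by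
    intro n
    have e1 : (fun x => u x - u' x) = (fun x => -(φ n x - u x)) +
        ((fun x => φ n x - φ' n x) + fun x => φ' n x - u' x) := by
      ext x; simp only [Pi.add_apply]; ring
    rw [e1]
    have c1 := (h1 n).1.1.continuous.aestronglyMeasurable (μ := (volume : Measure (E N)))
    have c2 := (h1' n).1.1.continuous.aestronglyMeasurable (μ := (volume : Measure (E N)))
    refine (eLpNorm_add_le (c1.sub m1).neg ((c1.sub c2).add (c2.sub m1')) hp).trans ?_
    refine add_le_add ?_ ((eLpNorm_add_le (c1.sub c2) (c2.sub m1') hp).trans ?_)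
    · exact (eLpNorm_neg (fun x => φ n x - u x) _ _).le
    · refine add_le_add ?_ le_rfl
      have h4 := hC _ ((h1 n).1.sub (h1' n).1)
      rwa [eLpNorm_isGrad ((h1 n).2.sub (h1' n).2 (h1 n).1.diff (h1' n).1.diff)] at h4
  have hl : Tendsto (fun n => eLpNorm (fun x => φ n x - u x) (ENNReal.ofReal (ts N)) volume +
      (C * ENNReal.ofReal ‖W n - W' n‖ +
        eLpNorm (fun x => φ' n x - u' x) (ENNReal.ofReal (ts N)) volume)) atTop (𝓝 0) := by
    have h5 : Tendsto (fun n => ENNReal.ofReal ‖W n - W' n‖) atTop (𝓝 0) := by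
      have := (ENNReal.continuous_ofReal.tendsto _).comp ((h2.sub h2').norm)
      simpa [Function.comp_def] using this
    have h6 := ENNReal.Tendsto.const_mul h5 (Or.inr ENNReal.coe_ne_top) (a := (C : ℝ≥0∞))
    have := h3.add (h6.add h3')
    simpa using this
  have h0 : eLpNorm (fun x => u x - u' x) (ENNReal.ofReal (ts N)) volume = 0 :=
    le_antisymm (ge_of_tendsto' hl key) bot_le
  have h00 := (eLpNorm_eq_zero_iff (m1.sub m1') hp0).1 h0
  filter_upwards [h00] with x hx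
  have : u x - u' x = 0 := hx
  linarith

/-- uniqueness -/
theorem fn_ae (hN : 3 ≤ N) {w : LV N} {u : E N → ℝ} (h : IsFn w u) : fn w =ᵐ[volume] u := by
  have h' : ∃ u, IsFn w u := ⟨u, h⟩
  have h2 : IsFn w (fn w) := by
    unfold fn
    rw [dif_pos h']
    exact h'.choose_spec
  exact isFn_unique hN h2 h

theorem fn_meas (w : LV N) : AEStronglyMeasurable (fn w) volume := by
  unfold fn
  split_ifs with h
  · exact h.choose_spec.1
  · exact aestronglyMeasurable_zero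

theorem isFn_test {φ : E N → ℝ} {W : LV N} (h : IsTest univ φ) (hW : IsGrad W φ) : IsFn W φ :=
  ⟨h.1.continuous.aestronglyMeasurable, fun _ => φ, fun _ => W, fun _ => ⟨h, hW⟩,
    tendsto_const_nhds, by simp⟩

theorem fn_test (hN : 3 ≤ N) {φ : E N → ℝ} {W : LV N} (h : IsTest univ φ) (hW : IsGrad W φ) :
    fn W =ᵐ[volume] φ := fn_ae hN (isFn_test h hW)

/-- the functions of approximating test functions converge -/
theorem fn_lim (hN : 3 ≤ N) {φ : ℕ → E N → ℝ} {W : ℕ → LV N} {w : LV N}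
    (h : ∀ n, IsTest univ (φ n) ∧ IsGrad (W n) (φ n)) (hl : Tendsto W atTop (𝓝 w)) :
    Tendsto (fun n => eLpNorm (fun x => φ n x - fn w x) (ENNReal.ofReal (ts N)) volume) atTop
        (𝓝 0) := by
  obtain ⟨u, hu, h2⟩ := exists_limit hN h hl
  have h3 : IsFn w u := ⟨hu.1, φ, W, h, hl, h2⟩
  have h4 := fn_ae hN h3
  refine h2.congr fun n => ?_
  apply eLpNorm_congr_ae
  filter_upwards [h4] with x hx
  rw [hx]

theorem fn_seq (hN : 3 ≤ N) {Ω : Set (E N)} {w : LV N} (hw : w ∈ DD Ω) :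
    ∃ (φ : ℕ → E N → ℝ) (W : ℕ → LV N),
    (∀ n, IsTest Ω (φ n) ∧ IsGrad (W n) (φ n)) ∧ Tendsto W atTop (𝓝 w) ∧
    Tendsto (fun n => eLpNorm (fun x => φ n x - fn w x) (ENNReal.ofReal (ts N)) volume) atTop
        (𝓝 0) := by
  obtain ⟨φ, W, h1, h2⟩ := DD_seq.1 hw
  exact ⟨φ, W, h1, h2, fn_lim hN (fun n => ⟨(h1 n).1.univ, (h1 n).2⟩) h2⟩

theorem IsFn.add (hN : 3 ≤ N) {w w' : LV N} {u u' : E N → ℝ} (h : IsFn w u) (h' : IsFn w' u') :
    IsFn (w + w') (fun x => u x + u' x) := by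
  obtain ⟨m1, φ, W, h1, h2, h3⟩ := h
  obtain ⟨m1', φ', W', h1', h2', h3'⟩ := h'
  refine ⟨m1.add m1', fun n x => φ n x + φ' n x, fun n => W n + W' n,
    fun n => ⟨(h1 n).1.add (h1' n).1, (h1 n).2.add (h1' n).2 (h1 n).1.diff (h1' n).1.diff⟩,
    h2.add h2', ?_⟩
  have h4 := h3.add h3'
  rw [add_zero] at h4
  refine tendsto_of_tendsto_of_tendsto_of_le_of_le tendsto_const_nhds h4 (fun n => bot_le) ?_
  intro n
  have e1 : (fun x => φ n x + φ' n x - (u x + u' x)) =
      (fun x => φ n x - u x) + fun x => φ' n x - u' x := by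
    ext x; simp only [Pi.add_apply]; ring
  have c1 := (h1 n).1.1.continuous.aestronglyMeasurable (μ := (volume : Measure (E N)))
  have c2 := (h1' n).1.1.continuous.aestronglyMeasurable (μ := (volume : Measure (E N)))
  show eLpNorm (fun x => φ n x + φ' n x - (u x + u' x)) _ _ ≤ _
  rw [e1]
  exact eLpNorm_add_le (c1.sub m1) (c2.sub m1') (one_le_ts hN)

theorem IsFn.smul (c : ℝ) {w : LV N} {u : E N → ℝ} (h : IsFn w u) :
    IsFn (c • w) (fun x => c * u x) := by
  obtain ⟨m1, φ, W, h1, h2, h3⟩ := h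
  refine ⟨m1.const_mul c, fun n x => c * φ n x, fun n => c • W n,
    fun n => ⟨(h1 n).1.const_mul c, (h1 n).2.smul c (h1 n).1.diff⟩, h2.const_smul c, ?_⟩
  have h4 := ENNReal.Tendsto.const_mul h3 (Or.inr ENNReal.ofReal_ne_top)
    (a := ENNReal.ofReal |c|)
  rw [mul_zero] at h4
  refine h4.congr fun n => ?_
  have e1 : (fun x => c * φ n x - c * u x) = c • fun x => φ n x - u x := by
    ext x; simp only [Pi.smul_apply, smul_eq_mul]; ring
  rw [e1, eLpNorm_const_smul, Real.enorm_eq_ofReal_abs]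

theorem fn_add (hN : 3 ≤ N) {w w' : LV N} (hw : w ∈ DD univ) (hw' : w' ∈ DD univ) :
    fn (w + w') =ᵐ[volume] fun x => fn w x + fn w' x :=
  fn_ae hN ((isFn_fn hN hw).add hN (isFn_fn hN hw'))

theorem fn_smul (hN : 3 ≤ N) (c : ℝ) {w : LV N} (hw : w ∈ DD univ) :
    fn (c • w) =ᵐ[volume] fun x => c * fn w x :=
  fn_ae hN ((isFn_fn hN hw).smul c)

theorem fn_sub (hN : 3 ≤ N) {w w' : LV N} (hw : w ∈ DD univ) (hw' : w' ∈ DD univ) :
    fn (w - w') =ᵐ[volume] fun x => fn w x - fn w' x := by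
  have h := fn_ae hN ((isFn_fn hN hw).add hN ((isFn_fn hN hw').smul (-1)))
  rw [show w - w' = w + (-1 : ℝ) • w' by rw [neg_smul, one_smul, sub_eq_add_neg]]
  filter_upwards [h] with x hx
  rw [hx]; ring

theorem fn_zero (hN : 3 ≤ N) : fn (0 : LV N) =ᵐ[volume] fun _ => 0 :=
  fn_test hN isTest_zero isGrad_zero

/-- Sobolev inequality -/
theorem exists_sob (N : ℕ) (hN : 3 ≤ N) : ∃ S : ℝ, 0 < S ∧ ∀ w ∈ DD (univ : Set (E N)),
    Mq (ts N) univ (fn w) ∧ nq (ts N) univ (fn w) ≤ S * ‖w‖ := by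
  obtain ⟨C, hC⟩ := sob_test (N := N) hN
  refine ⟨C + 1, by positivity, fun w hw => ?_⟩
  obtain ⟨φ, W, h1, h2, h3⟩ := fn_seq hN hw
  have hm := fn_meas w
  have hp := one_le_ts hN
  have key : ∀ n, eLpNorm (fn w) (ENNReal.ofReal (ts N)) volume ≤
      eLpNorm (fun x => φ n x - fn w x) (ENNReal.ofReal (ts N)) volume +
        C * ENNReal.ofReal ‖W n‖ := by
    intro n
    have e1 : fn w = (fun x => -(φ n x - fn w x)) + φ n := by
      ext x; simp only [Pi.add_apply]; ring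
    have c1 := (h1 n).1.1.continuous.aestronglyMeasurable (μ := (volume : Measure (E N)))
    calc eLpNorm (fn w) (ENNReal.ofReal (ts N)) volume
        = eLpNorm ((fun x => -(φ n x - fn w x)) + φ n) (ENNReal.ofReal (ts N)) volume := by
          rw [← e1]
      _ ≤ _ := eLpNorm_add_le (c1.sub hm).neg c1 hp
      _ ≤ _ := by
          refine add_le_add (eLpNorm_neg (fun x => φ n x - fn w x) _ _).le ?_
          have h4 := hC _ (h1 n).1
          rwa [eLpNorm_isGrad (h1 n).2] at h4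
  have hl : Tendsto (fun n => eLpNorm (fun x => φ n x - fn w x) (ENNReal.ofReal (ts N)) volume +
        C * ENNReal.ofReal ‖W n‖) atTop (𝓝 (0 + C * ENNReal.ofReal ‖w‖)) := by
    refine h3.add (ENNReal.Tendsto.const_mul ?_ (Or.inr ENNReal.coe_ne_top))
    exact (ENNReal.continuous_ofReal.tendsto _).comp h2.norm
  have h5 := ge_of_tendsto' hl key
  rw [zero_add] at h5
  have h6 : (C : ℝ≥0∞) * ENNReal.ofReal ‖w‖ = ENNReal.ofReal (C * ‖w‖) := by
    rw [ENNReal.ofReal_mul (by positivity), ENNReal.ofReal_coe_nnreal]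
  rw [h6] at h5
  unfold Mq nq
  rw [Measure.restrict_univ]
  refine ⟨⟨hm, h5.trans_lt ENNReal.ofReal_lt_top⟩, ?_⟩
  refine (ENNReal.toReal_le_of_le_ofReal (by positivity) h5).trans ?_
  apply mul_le_mul_of_nonneg_right _ (norm_nonneg _); linarith

open Classical in
/-- the Sobolev constant -/
def SS (N : ℕ) : ℝ := if h : 3 ≤ N then (exists_sob N h).choose else 1

theorem SS_pos : 0 < SS N := by
  unfold SS
  split_ifs with h
  · exact (exists_sob N h).choose_spec.1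
  · exact one_pos

theorem sobolev (hN : 3 ≤ N) {w : LV N} (hw : w ∈ DD univ) :
    Mq (ts N) univ (fn w) ∧ nq (ts N) univ (fn w) ≤ SS N * ‖w‖ := by
  unfold SS
  rw [dif_pos hN]
  exact (exists_sob N hN).choose_spec.2 w hw

/-! ### `C¹` and Lipschitz functions -/

theorem ae_unique_meas {f : ℕ → E N → ℝ} {u v : E N → ℝ} {p q : ℝ≥0∞} (hp : p ≠ 0) (hq : q ≠ 0)
    (hf : ∀ n, AEStronglyMeasurable (f n) volume) (hu : AEStronglyMeasurable u volume)
    (hv : AEStronglyMeasurable v volume)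
    (h1 : Tendsto (fun n => eLpNorm (fun x => f n x - u x) p volume) atTop (𝓝 0))
    (h2 : Tendsto (fun n => eLpNorm (fun x => f n x - v x) q volume) atTop (𝓝 0)) :
    u =ᵐ[volume] v :=
  tendstoInMeasure_ae_unique (tendstoInMeasure_of_tendsto_eLpNorm hp hf hu h1)
    (tendstoInMeasure_of_tendsto_eLpNorm hq hf hv h2)

theorem ts_ne_zero (hN : 3 ≤ N) : ENNReal.ofReal (ts N) ≠ 0 := by
  have := one_le_ts hN
  intro h
  rw [h] at this
  simp at this

section moll
open Pool.Agent.helper33.Insul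

theorem mem_DD_isH1 (hN : 3 ≤ N) {Ω : Set (E N)} (hΩ : IsOpen Ω) {φ : E N → ℝ}
    {G : E N → E N} (h : IsH1 φ G) (hs : HasCompactSupport φ) (ht : tsupport φ ⊆ Ω) {W : LV N}
    (hW : (W : E N → E N) =ᵐ[volume] G) : W ∈ DD Ω ∧ fn W =ᵐ[volume] φ := by
  obtain ⟨δ, hδ, hsub⟩ := hs.isCompact.exists_cthickening_subset_open hΩ ht
  obtain ⟨j0, hj0⟩ := exists_nat_one_div_lt hδ
  have hker : ∀ j x, x ∉ cthickening δ (tsupport φ) → moll (ker N (j + j0)) φ x = 0 := by
    intro j x hx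
    rw [moll_apply]
    rw [integral_eq_zero_of_ae]
    refine Eventually.of_forall fun t => ?_
    show ker N (j + j0) t • φ (x - t) = 0
    by_contra hne
    have h1 : ker N (j + j0) t ≠ 0 := fun h0 => hne (by rw [h0, zero_smul])
    have h2 : φ (x - t) ≠ 0 := fun h0 => hne (by rw [h0, smul_zero])
    apply hx
    have h3 : t ∈ ball (0 : E N) (1 / (((j + j0 : ℕ) : ℝ) + 1)) := by
      rw [← ker_support]; exact h1
    rw [mem_ball_zero_iff] at h3
    apply mem_cthickening_of_dist_le x (x - t) δ _ (subset_tsupport _ h2)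
    rw [dist_eq_norm, sub_sub_cancel]
    refine h3.le.trans (le_trans ?_ hj0.le)
    apply one_div_le_one_div_of_le (by positivity)
    push_cast
    linarith [(Nat.cast_nonneg j : (0 : ℝ) ≤ j)]
  have htest : ∀ j, IsTest Ω (moll (ker N (j + j0)) φ) := by
    intro j
    have h1 : tsupport (moll (ker N (j + j0)) φ) ⊆ cthickening δ (tsupport φ) := by
      apply closure_minimal _ isClosed_cthickening
      intro x hx
      by_contra hx'
      exact hx (hker j x hx')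
    refine ⟨h.moll_smooth _, ?_, h1.trans hsub⟩
    exact hs.isCompact.cthickening.of_isClosed_subset (isClosed_tsupport _) h1
  have hg : ∀ j x, ∇ (moll (ker N j) φ) x = moll (ker N j) G x := by
    intro j x
    apply ext_inner_right ℝ
    intro v
    rw [gradient_inner, h.hasFDerivAt_moll]
  set Wj : ℕ → LV N := fun j => (memLp_moll (j + j0) h.memLp_grad).toLp _ with hWj
  have hgrad : ∀ j, IsGrad (Wj j) (moll (ker N (j + j0)) φ) := by
    intro j
    unfold IsGrad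
    filter_upwards [(memLp_moll (j + j0) h.memLp_grad).coeFn_toLp] with x hx
    rw [hWj, hx, hg]
  have hWG : W = h.memLp_grad.toLp G := by
    apply Lp.ext
    exact hW.trans h.memLp_grad.coeFn_toLp.symm
  have hl : Tendsto Wj atTop (𝓝 W) := by
    rw [hWG]
    rw [Lp.tendsto_Lp_iff_tendsto_eLpNorm'' (fun j => moll (ker N (j + j0)) G)
      (fun j => memLp_moll (j + j0) h.memLp_grad) G h.memLp_grad]
    exact h.tendsto_moll_grad.comp (tendsto_add_atTop_nat j0)
  have hmem : W ∈ DD Ω := DD_seq.2 ⟨_, _, fun j => ⟨htest j, hgrad j⟩, hl⟩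
  refine ⟨hmem, ?_⟩
  refine ae_unique_meas (ts_ne_zero hN) (q := 2) (by norm_num)
    (fun j => (htest j).1.continuous.aestronglyMeasurable) (fn_meas W)
    h.memLp.aestronglyMeasurable (fn_lim hN (fun j => ⟨(htest j).univ, hgrad j⟩) hl) ?_
  exact h.tendsto_moll.comp (tendsto_add_atTop_nat j0)

/-- same for compactly supported `C¹` functions, which moreover belong to `DD Ω` -/
theorem mem_DD_C1 (hN : 3 ≤ N) {Ω : Set (E N)} (hΩ : IsOpen Ω) {φ : E N → ℝ} {W : LV N}
    (h : ContDiff ℝ 1 φ)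
    (hs : HasCompactSupport φ) (ht : tsupport φ ⊆ Ω) (hW : IsGrad W φ) :
    W ∈ DD Ω ∧ fn W =ᵐ[volume] φ :=
  mem_DD_isH1 hN hΩ (isH1_C1 h hs) hs ht hW

/-- Lipschitz functions with compact support in `Ω` (with the a.e. gradient of Rademacher) -/
theorem mem_DD_lip (hN : 3 ≤ N) {Ω : Set (E N)} (hΩ : IsOpen Ω) {φ : E N → ℝ}
    (h : ∃ K, LipschitzWith K φ) (hs : HasCompactSupport φ) (ht : tsupport φ ⊆ Ω) :
    ∃ W ∈ DD Ω, IsGrad W φ ∧ fn W =ᵐ[volume] φ := by
  obtain ⟨K, hK⟩ := h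
  have h1 := isH1_lipschitz hK hs
  have h2 : ((h1.memLp_grad.toLp _ : LV N) : E N → E N) =ᵐ[volume] gradient φ :=
    h1.memLp_grad.coeFn_toLp
  obtain ⟨h3, h4⟩ := mem_DD_isH1 hN hΩ h1 hs ht h2
  exact ⟨_, h3, h2, h4⟩

end moll

/-! ### supports -/

theorem fn_zero_off (hN : 3 ≤ N) {Ω : Set (E N)} {w : LV N} (hw : w ∈ DD Ω) :
    ∀ᵐ x, x ∉ Ω → fn w x = 0 := by
  obtain ⟨φ, W, h1, h2, h3⟩ := fn_seq hN hw
  obtain ⟨ns, hns, hae⟩ := (tendstoInMeasure_of_tendsto_eLpNorm (ts_ne_zero hN)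
    (fun n => (h1 n).1.1.continuous.aestronglyMeasurable) (fn_meas w) h3).exists_seq_tendsto_ae
  filter_upwards [hae] with x hx hxΩ
  refine tendsto_nhds_unique hx ?_
  have : (fun i => φ (ns i) x) = fun _ => 0 := by
    ext i
    exact image_eq_zero_of_notMem_tsupport fun h => hxΩ ((h1 (ns i)).1.2.2 h)
  rw [this]
  exact tendsto_const_nhds

theorem grad_zero_off {φ : E N → ℝ} {x : E N} (hx : x ∉ tsupport φ) : ∇ φ x = 0 := by
  have h1 : φ =ᶠ[𝓝 x] fun _ => 0 := notMem_tsupport_iff_eventuallyEq.1 hx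
  rw [h1.gradient_eq, gradient_fun_const]

theorem zero_off {Ω : Set (E N)} {w : LV N} (hw : w ∈ DD Ω) : ∀ᵐ x, x ∉ Ω → w x = 0 := by
  obtain ⟨φ, W, h1, h2⟩ := DD_seq.1 hw
  obtain ⟨ns, hns, hae⟩ := (tendstoInMeasure_of_tendsto_Lp h2).exists_seq_tendsto_ae
  have h3 : ∀ᵐ x, ∀ n, W n x = ∇ (φ n) x := ae_all_iff.2 fun n => (h1 n).2
  filter_upwards [hae, h3] with x hx hx3 hxΩ
  refine tendsto_nhds_unique hx ?_
  have : (fun i => W (ns i) x) = fun _ => 0 := by
    ext1 i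
    rw [hx3]
    exact grad_zero_off fun h => hxΩ ((h1 (ns i)).1.2.2 h)
  rw [this]
  exact tendsto_const_nhds

/-! ### pairings -/

theorem mul_Lp {p : ℝ≥0∞} (hp : 1 ≤ p) {f g : E N → ℝ} (hf : MemLp f p volume)
    (hg : ∀ q, MemLp g q volume) : Integrable (fun x => f x * g x) := by
  have hc := ENNReal.HolderConjugate.conjExponent hp
  have h := (hg (ENNReal.conjExponent p)).smul hf (r := 1)
  exact memLp_one_iff_integrable.1 h

theorem holder_one {p : ℝ≥0∞} (hp : 1 ≤ p) {f u g : E N → ℝ}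
    (hf : MemLp f p volume) (hu : MemLp u p volume) (hg : ∀ q, MemLp g q volume) :
    eLpNorm (fun x => f x * g x - u x * g x) 1 volume ≤
      eLpNorm (fun x => f x - u x) p volume * eLpNorm g (ENNReal.conjExponent p) volume := by
  have hc := ENNReal.HolderConjugate.conjExponent hp
  have e : (fun x => f x * g x - u x * g x) = (fun x => f x - u x) • g := by
    ext x
    rw [Pi.smul_apply', smul_eq_mul, sub_mul]
  rw [e]
  exact eLpNorm_smul_le_mul_eLpNorm (hg (ENNReal.conjExponent p)).1 (hf.sub hu).1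

theorem tendsto_mul_Lp {p : ℝ≥0∞} (hp : 1 ≤ p) {f : ℕ → E N → ℝ} {u g : E N → ℝ}
    (hf : ∀ n, MemLp (f n) p volume) (hu : MemLp u p volume) (hg : ∀ q, MemLp g q volume)
    (hl : Tendsto (fun n => eLpNorm (fun x => f n x - u x) p volume) atTop (𝓝 0)) :
    Tendsto (fun n => ∫ x, f n x * g x) atTop (𝓝 (∫ x, u x * g x)) := by
  have hl2 : Tendsto (fun n => eLpNorm (fun x => f n x - u x) p volume *
      eLpNorm g (ENNReal.conjExponent p) volume) atTop (𝓝 0) := by
    have := ENNReal.Tendsto.mul_const hl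
      (Or.inr (hg (ENNReal.conjExponent p)).2.ne) (b := eLpNorm g (ENNReal.conjExponent p) volume)
    rwa [zero_mul] at this
  have hl3 : Tendsto (fun n => eLpNorm (fun x => f n x * g x - u x * g x) 1 volume) atTop
      (𝓝 0) :=
    tendsto_of_tendsto_of_tendsto_of_le_of_le tendsto_const_nhds hl2 (fun n => zero_le)
      fun n => holder_one hp (hf n) hu hg
  exact tendsto_integral_of_L1' _ (mul_Lp hp hu hg).1
    (Eventually.of_forall fun n => mul_Lp hp (hf n) hg) hl3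

theorem inner_eq_integral (w W : LV N) : ⟪w, W⟫ = ∫ x, ⟪w x, W x⟫ := L2.inner_def w W

theorem test_deriv {φ : E N → ℝ} (hφ : IsTest univ φ) (v : E N) :
    IsTest univ (fun x => fderiv ℝ φ x v) := by
  refine ⟨(hφ.1.fderiv_right (m := ∞) (by simp)).clm_apply contDiff_const, ?_, subset_univ _⟩
  exact (hφ.2.1.fderiv ℝ).comp_left (g := fun L : E N →L[ℝ] ℝ => L v) (by simp)

/-- `w` is the distributional gradient of `fn w` -/
theorem ibp (hN : 3 ≤ N) {w : LV N} (hw : w ∈ DD univ) {φ : E N → ℝ} (hφ : IsTest univ φ)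
    (v : E N) : ∫ x, ⟪w x, v⟫ * φ x = - ∫ x, fn w x * fderiv ℝ φ x v := by
  obtain ⟨φ', W, h1, h2, h3⟩ := fn_seq hN hw
  have hΦ : MemLp (fun x => φ x • v) 2 (volume : Measure (E N)) :=
    (hφ.1.continuous.smul continuous_const).memLp_of_hasCompactSupport hφ.2.1.smul_right
  have e1 : ∀ w : LV N, ∫ x, ⟪w x, v⟫ * φ x = ⟪w, hΦ.toLp _⟫ := by
    intro w
    rw [inner_eq_integral]
    apply integral_congr_ae
    filter_upwards [hΦ.coeFn_toLp] with x hx
    rw [hx, real_inner_smul_right, mul_comm]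
  have t1 : Tendsto (fun n => ∫ x, ⟪W n x, v⟫ * φ x) atTop (𝓝 (∫ x, ⟪w x, v⟫ * φ x)) := by
    simp_rw [e1]
    exact h2.inner tendsto_const_nhds
  have hS := (sobolev hN hw).1
  unfold Mq at hS
  rw [Measure.restrict_univ] at hS
  have t2 := tendsto_mul_Lp (one_le_ts hN) (fun n => (h1 n).1.memLp _) hS
    (fun q => (test_deriv hφ v).memLp q) h3
  refine tendsto_nhds_unique t1 (t2.neg.congr fun n => ?_)
  have h5 := Pool.Agent.helper33.Insul.ibp_smooth ((h1 n).1.1.of_le (by simp))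
    (hφ.1.of_le (by simp)) hφ.2.1 v
  rw [h5, neg_neg]
  apply integral_congr_ae
  filter_upwards [(h1 n).2] with x hx
  rw [hx, Pool.Agent.helper33.Insul.gradient_inner]

theorem fn_inj (hN : 3 ≤ N) {w : LV N} (hw : w ∈ DD univ) (h : fn w =ᵐ[volume] fun _ => 0) :
    w = 0 := by
  have h1 : ∀ v : E N, ∀ᵐ x, ⟪w x, v⟫ = 0 := by
    intro v
    have hm : MemLp (fun x => ⟪w x, v⟫) 2 (volume : Measure (E N)) := (Lp.memLp w).inner_const v
    apply ae_eq_zero_of_integral_contDiff_smul_eq_zero (hm.locallyIntegrable (by norm_num))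
    intro g hg hgs
    have h2 := ibp hN hw (φ := g) ⟨hg, hgs, subset_univ _⟩ v
    have h3 : ∫ x, fn w x * fderiv ℝ g x v = 0 := by
      rw [integral_eq_zero_of_ae]
      filter_upwards [h] with x hx
      rw [hx]; simp
    rw [h3, neg_zero] at h2
    rw [← h2]
    congr 1; ext x; simp [mul_comm]
  have h2 : ∀ᵐ x, ∀ i : Fin N, ⟪w x, EuclideanSpace.basisFun (Fin N) ℝ i⟫ = 0 :=
    ae_all_iff.2 fun i => h1 _
  apply Lp.ext
  filter_upwards [h2, Lp.coeFn_zero (E N) 2 (volume : Measure (E N))] with x hx h0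
  rw [h0, Pi.zero_apply]
  ext i
  have h3 := hx i
  rw [EuclideanSpace.basisFun_apply, real_inner_comm, EuclideanSpace.inner_single_left] at h3
  simpa using h3

theorem ibp_lap (hN : 3 ≤ N) {w : LV N} (hw : w ∈ DD univ) {φ : E N → ℝ} (hφ : IsTest univ φ)
    {W : LV N} (hW : IsGrad W φ) :
    ⟪w, W⟫ = - ∫ x, fn w x * lap φ x := by
  have hS := (sobolev hN hw).1
  unfold Mq at hS
  rw [Measure.restrict_univ] at hS
  set e : Fin N → E N := fun i => EuclideanSpace.single i 1 with he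
  have e1 : ∀ x, ⟪w x, ∇ φ x⟫ = ∑ i, ⟪w x, e i⟫ * fderiv ℝ φ x (e i) := by
    intro x
    rw [← (EuclideanSpace.basisFun (Fin N) ℝ).sum_inner_mul_inner]
    refine Finset.sum_congr rfl fun i _ => ?_
    rw [EuclideanSpace.basisFun_apply, real_inner_comm (∇ φ x),
      Pool.Agent.helper33.Insul.gradient_inner]
  have i1 : ∀ i, Integrable fun x => ⟪w x, e i⟫ * fderiv ℝ φ x (e i) := fun i =>
    mul_Lp (p := 2) (by norm_num) ((Lp.memLp w).inner_const _) fun q =>
      (test_deriv hφ (e i)).memLp q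
  have i2 : ∀ i, Integrable fun x => fn w x * fderiv ℝ (fun y => fderiv ℝ φ y (e i)) x (e i) :=
    fun i => mul_Lp (one_le_ts hN) hS fun q => (test_deriv (test_deriv hφ (e i)) (e i)).memLp q
  calc ⟪w, W⟫ = ∫ x, ⟪w x, ∇ φ x⟫ := by
        rw [inner_eq_integral]
        apply integral_congr_ae
        filter_upwards [hW] with x hx
        rw [hx]
    _ = ∫ x, ∑ i, ⟪w x, e i⟫ * fderiv ℝ φ x (e i) := by simp_rw [e1]
    _ = ∑ i, ∫ x, ⟪w x, e i⟫ * fderiv ℝ φ x (e i) := integral_finsetSum _ fun i _ => i1 i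
    _ = ∑ i, - ∫ x, fn w x * fderiv ℝ (fun y => fderiv ℝ φ y (e i)) x (e i) :=
        Finset.sum_congr rfl fun i _ => ibp hN hw (test_deriv hφ (e i)) (e i)
    _ = - ∫ x, ∑ i, fn w x * fderiv ℝ (fun y => fderiv ℝ φ y (e i)) x (e i) := by
        rw [integral_finsetSum _ fun i _ => i2 i, Finset.sum_neg_distrib]
    _ = - ∫ x, fn w x * lap φ x := by
        simp_rw [lap, Finset.mul_sum, he]

/-- convergence in `D` implies convergence of the functions in `L^{2*}` -/
theorem fn_tendsto (hN : 3 ≤ N) {w : ℕ → LV N} {v : LV N} (hw : ∀ n, w n ∈ DD univ)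
    (h : Tendsto w atTop (𝓝 v)) :
    v ∈ DD univ ∧ Tendsto (fun n => nq (ts N) univ (fun x => fn (w n) x - fn v x)) atTop (𝓝 0) := by
  have hv : v ∈ DD (univ : Set (E N)) :=
    (DD_isClosed univ).mem_of_tendsto h (Eventually.of_forall hw)
  refine ⟨hv, ?_⟩
  have h1 : Tendsto (fun n => SS N * ‖w n - v‖) atTop (𝓝 0) := by
    have := ((h.sub_const v).norm).const_mul (SS N)
    simpa using this
  refine squeeze_zero (fun n => ENNReal.toReal_nonneg) (fun n => ?_) h1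
  have h2 := (sobolev hN ((DD univ).sub_mem (hw n) hv)).2
  have h3 : nq (ts N) univ (fun x => fn (w n) x - fn v x) = nq (ts N) univ (fn (w n - v)) := by
    unfold nq
    rw [Measure.restrict_univ, eLpNorm_congr_ae (fn_sub hN (hw n) hv)]
  rw [h3]
  exact h2

/-- the other exponents on bounded sets -/
theorem exists_sob_q (hN : 3 ≤ N) (R : ℝ) {q : ℝ} (h1 : 1 ≤ q) (hq : q ≤ ts N) :
    ∃ S : ℝ, 0 < S ∧ ∀ w ∈ DD (ball (0 : E N) R), Mq q univ (fn w) ∧
      nq q univ (fn w) ≤ S * ‖w‖ := by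
  set V : ℝ≥0∞ := volume (ball (0 : E N) R) with hV
  have hVt : V ≠ ⊤ := measure_ball_lt_top.ne
  have hts := ts_gt hN
  set a : ℝ := 1 / q - 1 / ts N with ha
  have ha0 : 0 ≤ a := by
    rw [ha, sub_nonneg]; exact one_div_le_one_div_of_le (by linarith) hq
  have hVa : V ^ a ≠ ⊤ := ENNReal.rpow_ne_top_of_nonneg ha0 hVt
  refine ⟨SS N * (V ^ a).toReal + 1, by
    have := @SS_pos N
    positivity, fun w hw => ?_⟩
  have hwu : w ∈ DD (univ : Set (E N)) := DD_mono (subset_univ _) hw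
  obtain ⟨h3, h4⟩ := sobolev hN hwu
  unfold Mq nq at *
  rw [Measure.restrict_univ] at *
  have e1 : fn w =ᵐ[volume] (ball (0 : E N) R).indicator (fn w) := by
    filter_upwards [fn_zero_off hN hw] with x hx
    by_cases hxb : x ∈ ball (0 : E N) R
    · rw [indicator_of_mem hxb]
    · rw [indicator_of_notMem hxb, hx hxb]
  have e2 : ∀ p, eLpNorm (fn w) p volume = eLpNorm (fn w) p (volume.restrict (ball 0 R)) := by
    intro p
    rw [← eLpNorm_indicator_eq_eLpNorm_restrict measurableSet_ball]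
    exact eLpNorm_congr_ae e1
  have h5 := eLpNorm_le_eLpNorm_mul_rpow_measure_univ (μ := volume.restrict (ball (0 : E N) R))
    (ENNReal.ofReal_le_ofReal hq) (h3.1.restrict)
  rw [← e2, ← e2, Measure.restrict_apply_univ, ENNReal.toReal_ofReal (by linarith),
    ENNReal.toReal_ofReal (by linarith), ← ha, ← hV] at h5
  have h6 : eLpNorm (fn w) (ENNReal.ofReal (ts N)) volume * V ^ a ≠ ⊤ :=
    ENNReal.mul_ne_top h3.2.ne hVa
  refine ⟨⟨h3.1, h5.trans_lt h6.lt_top⟩, ?_⟩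
  calc (eLpNorm (fn w) (ENNReal.ofReal q) volume).toReal
      ≤ (eLpNorm (fn w) (ENNReal.ofReal (ts N)) volume * V ^ a).toReal :=
        ENNReal.toReal_mono h6 h5
    _ = (eLpNorm (fn w) (ENNReal.ofReal (ts N)) volume).toReal * (V ^ a).toReal :=
        ENNReal.toReal_mul
    _ ≤ (SS N * ‖w‖) * (V ^ a).toReal := by gcongr
    _ ≤ (SS N * (V ^ a).toReal + 1) * ‖w‖ := by nlinarith [norm_nonneg w]

end Pool.Agent.helper13.BN
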